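import Pool.Agent.Helper96.AW.GoalsC

/-!
Project AW (MP_af6c86_pr), packet AV: upper bound for the probability of no complex component.
-/

set_option autoImplicit false

namespace Pool.Agent.Helper45.AW.AV

open Finset Filter Topology Pool.Agent.Helper26.AF Pool.Agent.Helper26.AL MeasureTheory
open Pool.Agent.Helper96.AW

theorem tau_le (τ : ℝ) : τ * Real.exp (-τ) ≤ Real.exp (-1) := by
  have h1 : τ ≤ Real.exp (τ - 1) := by
    have := Real.add_one_le_exp (τ - 1)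
    linarith
  calc τ * Real.exp (-τ) ≤ Real.exp (τ - 1) * Real.exp (-τ) :=
        mul_le_mul_of_nonneg_right h1 (Real.exp_pos _).le
    _ = Real.exp (-1) := by rw [← Real.exp_add]; congr 1; ring

theorem pow_two_mul (k : ℕ) (hk : 1 ≤ k) : (k : ℝ) ^ (k - 2) * (k : ℝ) ^ 2 = (k : ℝ) ^ k := by
  rcases Nat.lt_or_ge k 2 with h | h
  · have : k = 1 := by omega
    subst this
    norm_num
  · rw [← pow_add, Nat.sub_add_cancel h]

/-- Stirling: `k^(k-2) e^(-k)/k! ≤ k^(-5/2)` -/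
theorem term_le (k : ℕ) (hk : 1 ≤ k) :
    (k : ℝ) ^ (k - 2) * Real.exp (-1) ^ k / (k.factorial : ℝ) ≤ (k : ℝ) ^ (-(5 : ℝ) / 2) := by
  have hk0 : (0 : ℝ) < k := by exact_mod_cast hk
  have h1 := Stirling.le_factorial_stirling k
  have h2 : √(k : ℝ) * ((k : ℝ) / Real.exp 1) ^ k ≤ (k.factorial : ℝ) := by
    refine le_trans ?_ h1
    refine mul_le_mul_of_nonneg_right (Real.sqrt_le_sqrt ?_) (by positivity)
    have := Real.pi_gt_three
    nlinarith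
  have h3 : (k : ℝ) ^ (-(5 : ℝ) / 2) = 1 / ((k : ℝ) ^ 2 * √(k : ℝ)) := by
    rw [Real.sqrt_eq_rpow, ← Real.rpow_natCast (k : ℝ) 2, ← Real.rpow_add hk0, one_div,
      ← Real.rpow_neg hk0.le]
    congr 1
    norm_num
  rw [h3, div_le_div_iff₀ (by positivity) (by positivity), one_mul]
  have h4 : (k : ℝ) ^ (k - 2) * Real.exp (-1) ^ k * ((k : ℝ) ^ 2 * √(k : ℝ)) =
      √(k : ℝ) * ((k : ℝ) / Real.exp 1) ^ k := by
    rw [div_pow, ← pow_two_mul k hk, Real.exp_neg, inv_pow]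
    ring
  rw [h4]
  exact h2

theorem ev (l : ℝ) (hl : 0 ≤ l) : ∀ᶠ n : ℕ in atTop, 0 < pc l n ∧ pc l n < 1 ∧ 0 < ta l n ∧
    ta l n < 1 ∧ 1 ≤ n := by
  filter_upwards [eventually_gt_atTop ⌈1 + l⌉₊, eventually_ge_atTop 2] with n hn hn2
  have h1 : 1 + l < n := Nat.lt_of_ceil_lt hn
  have hn0 : (0 : ℝ) < n := by linarith
  have hn1 : (1 : ℝ) < n := by linarith
  have h3 : (1 : ℝ) < (n : ℝ) ^ ((1 : ℝ) / 3) := Real.one_lt_rpow hn1 (by norm_num)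
  have h4 : l / (n : ℝ) ^ ((1 : ℝ) / 3) ≤ l := div_le_self hl h3.le
  have h5 : 0 ≤ l / (n : ℝ) ^ ((1 : ℝ) / 3) := by positivity
  refine ⟨?_, ?_, ?_, ?_, by omega⟩
  · unfold pc
    positivity
  · unfold pc
    rw [div_lt_one hn0]
    linarith
  · unfold ta
    have h6 : 1 < (1 + l) * (n : ℝ) ^ ((1 : ℝ) / 3) := by nlinarith
    have h7 : 1 / ((1 + l) * (n : ℝ) ^ ((1 : ℝ) / 3)) < 1 := by
      rw [div_lt_one (by linarith)]
      exact h6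
    linarith
  · unfold ta
    have h6 : 0 < 1 / ((1 + l) * (n : ℝ) ^ ((1 : ℝ) / 3)) := by positivity
    linarith

theorem t : Pool.Agent.Helper96.AW.S_AV := by
  intro hTG hTA hAR hAT hAU hTF hAS
  obtain ⟨C1, hC1, hAT⟩ := hAT
  obtain ⟨C2, hC2, hAU⟩ := hAU
  obtain ⟨C3, hC3, hAS⟩ := hAS
  refine ⟨C1 * C2 * Real.exp C3, by positivity, fun l hl => ?_⟩
  filter_upwards [hAT l hl, hAU l hl, ev l hl] with n h1 h2 ⟨hp0, hp1, hτ0, hτ1, hn⟩
  have hn0 : (0 : ℝ) < n := by exact_mod_cast hn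
  rw [hTG n _ hp0 hp1]
  show (1 - pc l n) ^ (n.choose 2) * XL (uu l n) (n + 1) n ≤ _
  have hu : 0 < uu l n := div_pos hp0 (by linarith)
  set u := uu l n with hudef
  set τ := ta l n with hτdef
  set q := τ * Real.exp (-τ) with hq
  have hq0 : 0 < q := mul_pos hτ0 (Real.exp_pos _)
  have hz0 : 0 < q / u := div_pos hq0 hu
  have hzk : ∀ k, 1 ≤ k → u ^ (k - 1) * (q / u) ^ k = 1 / u * q ^ k := by
    intro k hk
    obtain ⟨j, rfl⟩ := Nat.exists_eq_add_of_le' hk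
    rw [Nat.add_sub_cancel, div_pow, pow_succ u j]
    field_simp
  have hterm : ∀ k, 1 ≤ k → (trk k : ℝ) * u ^ (k - 1) * (q / u) ^ k / (k.factorial : ℝ) ≤
      1 / u * vv τ k := by
    intro k hk
    rw [mul_assoc, hzk k hk]
    unfold vv
    have h3 : (trk k : ℝ) ≤ (k : ℝ) ^ (k - 2) := by exact_mod_cast hTA k hk
    calc (trk k : ℝ) * (1 / u * q ^ k) / (k.factorial : ℝ)
        ≤ (k : ℝ) ^ (k - 2) * (1 / u * q ^ k) / (k.factorial : ℝ) := by gcongr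
      _ = 1 / u * ((k : ℝ) ^ (k - 2) * q ^ k / (k.factorial : ℝ)) := by ring
  have hvv : ∀ k, 1 ≤ k → vv τ k ≤ (k : ℝ) ^ (-(5 : ℝ) / 2) := by
    intro k hk
    refine le_trans ?_ (term_le k hk)
    unfold vv
    have := tau_le τ
    gcongr
  have hTF' := hTF u (q / u) n n (fun i => 1 / u * ((2 : ℝ) ^ i) ^ (-(5 : ℝ) / 2)) hu hz0
    Nat.lt_two_pow_self (by
      intro i _ k hk
      rw [mem_Ico] at hk
      have hk1 : 1 ≤ k := le_trans Nat.one_le_two_pow hk.1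
      refine (hterm k hk1).trans ?_
      refine mul_le_mul_of_nonneg_left ((hvv k hk1).trans ?_) (by positivity)
      have h3 : ((2 : ℝ) ^ i) ≤ k := by exact_mod_cast hk.1
      exact Real.rpow_le_rpow_of_nonpos (by positivity) h3 (by norm_num))
  set D := (τ - τ ^ 2 / 2) / u with hD
  have hA : ∀ i, (∑ k ∈ Ico 1 (2 ^ (i + 1)),
      (trk k : ℝ) * u ^ (k - 1) * (q / u) ^ k / (k.factorial : ℝ)) ≤
      D - 1 / u * ∑ k ∈ Ico (2 ^ (i + 1)) (2 ^ (i + 2)), vv τ k := by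
    intro i
    have h3 : (∑ k ∈ Ico 1 (2 ^ (i + 1)),
        (trk k : ℝ) * u ^ (k - 1) * (q / u) ^ k / (k.factorial : ℝ)) ≤
        1 / u * ∑ k ∈ Ico 1 (2 ^ (i + 1)), vv τ k := by
      rw [Finset.mul_sum]
      exact Finset.sum_le_sum fun k hk => hterm k (mem_Ico.1 hk).1
    have h4 := hAR τ (2 ^ (i + 2) - 1) hτ0.le hτ1.le
    have h5 : Icc 1 (2 ^ (i + 2) - 1) = Ico 1 (2 ^ (i + 2)) := by
      ext k
      rw [mem_Icc, mem_Ico]
      have : 1 ≤ 2 ^ (i + 2) := Nat.one_le_two_pow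
      omega
    rw [h5, ← Finset.sum_Ico_consecutive _ (Nat.one_le_two_pow : 1 ≤ 2 ^ (i + 1))
      (Nat.pow_le_pow_right (by norm_num) (by omega) : 2 ^ (i + 1) ≤ 2 ^ (i + 2))] at h4
    have h6 : 1 / u * (∑ k ∈ Ico 1 (2 ^ (i + 1)), vv τ k +
        ∑ k ∈ Ico (2 ^ (i + 1)) (2 ^ (i + 2)), vv τ k) ≤ 1 / u * (τ - τ ^ 2 / 2) :=
      mul_le_mul_of_nonneg_left h4 (by positivity)
    have h7 : 1 / u * (τ - τ ^ 2 / 2) = D := by rw [hD]; ring
    rw [h7, mul_add] at h6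
    linarith
  have hB : (1 + ∑ i ∈ range n, 1 / u * ((2 : ℝ) ^ i) ^ (-(5 : ℝ) / 2) *
      Real.exp (∑ k ∈ Ico 1 (2 ^ (i + 1)),
        (trk k : ℝ) * u ^ (k - 1) * (q / u) ^ k / (k.factorial : ℝ))) ≤
      Real.exp D * (C2 * (n : ℝ) ^ (-(2 : ℝ) / 3)) := by
    refine le_trans ?_ (mul_le_mul_of_nonneg_left h2 (Real.exp_pos D).le)
    rw [mul_add, Finset.mul_sum, ← Real.exp_add, add_neg_cancel, Real.exp_zero]
    refine add_le_add le_rfl (Finset.sum_le_sum fun i _ => ?_)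
    calc 1 / u * ((2 : ℝ) ^ i) ^ (-(5 : ℝ) / 2) * Real.exp (∑ k ∈ Ico 1 (2 ^ (i + 1)),
          (trk k : ℝ) * u ^ (k - 1) * (q / u) ^ k / (k.factorial : ℝ))
        ≤ 1 / u * ((2 : ℝ) ^ i) ^ (-(5 : ℝ) / 2) *
          Real.exp (D - 1 / u * ∑ k ∈ Ico (2 ^ (i + 1)) (2 ^ (i + 2)), vv τ k) := by
          refine mul_le_mul_of_nonneg_left (Real.exp_le_exp.2 (hA i)) (by positivity)
      _ = _ := by
          rw [sub_eq_add_neg, Real.exp_add]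
          ring
  have hV : Real.exp (∑ k ∈ Icc 1 n, (Nc k 0 : ℝ) * u ^ k * (q / u) ^ k / (k.factorial : ℝ)) ≤
      Real.exp C3 * √((1 + l) * (n : ℝ) ^ ((1 : ℝ) / 3)) := by
    have h3 : (∑ k ∈ Icc 1 n, (Nc k 0 : ℝ) * u ^ k * (q / u) ^ k / (k.factorial : ℝ)) ≤
        1 / 2 * Real.log (1 / (1 - τ)) + C3 := by
      refine le_trans (le_of_eq ?_) (hAS τ n hτ0.le hτ1)
      refine Finset.sum_congr rfl fun k _ => ?_
      rw [mul_assoc, ← mul_pow, mul_div_cancel₀ _ hu.ne']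
    refine (Real.exp_le_exp.2 h3).trans (le_of_eq ?_)
    have h4 : 1 / (1 - τ) = (1 + l) * (n : ℝ) ^ ((1 : ℝ) / 3) := by
      rw [hτdef]
      unfold ta
      rw [sub_sub_cancel, one_div_one_div]
    have h5 : 0 < (1 + l) * (n : ℝ) ^ ((1 : ℝ) / 3) := by positivity
    rw [h4, Real.exp_add, mul_comm (1 / 2 : ℝ), Real.exp_mul, Real.exp_log h5, mul_comm,
      Real.sqrt_eq_rpow]
  have hX : XL u (n + 1) n ≤ (n.factorial : ℝ) * (u / q) ^ n *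
      ((Real.exp C3 * √((1 + l) * (n : ℝ) ^ ((1 : ℝ) / 3))) *
        (Real.exp D * (C2 * (n : ℝ) ^ (-(2 : ℝ) / 3)))) := by
    have h3 : XL u (n + 1) n * (q / u) ^ n / (n.factorial : ℝ) ≤
        (Real.exp C3 * √((1 + l) * (n : ℝ) ^ ((1 : ℝ) / 3))) *
        (Real.exp D * (C2 * (n : ℝ) ^ (-(2 : ℝ) / 3))) := by
      refine hTF'.trans (mul_le_mul hV hB ?_ (by positivity))
      positivity
    have h4 : XL u (n + 1) n = (n.factorial : ℝ) * (u / q) ^ n *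
        (XL u (n + 1) n * (q / u) ^ n / (n.factorial : ℝ)) := by
      rw [div_pow, div_pow]
      have := hq0.ne'
      have := hu.ne'
      field_simp
    rw [h4]
    exact mul_le_mul_of_nonneg_left h3 (by positivity)
  have hp1' : 0 ≤ 1 - pc l n := by linarith
  have hsq : √(n : ℝ) * (√((1 + l) * (n : ℝ) ^ ((1 : ℝ) / 3)) * (n : ℝ) ^ (-(2 : ℝ) / 3)) ≤
      1 + l := by
    rw [Real.sqrt_mul (by positivity)]
    have h3 : √(1 + l) ≤ 1 + l := by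
      rw [Real.sqrt_le_left (by positivity)]
      nlinarith
    have h4 : √(n : ℝ) * (√((n : ℝ) ^ ((1 : ℝ) / 3)) * (n : ℝ) ^ (-(2 : ℝ) / 3)) = 1 := by
      rw [Real.sqrt_eq_rpow, Real.sqrt_eq_rpow, ← Real.rpow_mul hn0.le, ← Real.rpow_add hn0,
        ← Real.rpow_add hn0]
      rw [show (1 : ℝ) / 2 + (1 / 3 * (1 / 2) + -2 / 3) = 0 by norm_num, Real.rpow_zero]
    calc √(n : ℝ) * (√(1 + l) * √((n : ℝ) ^ ((1 : ℝ) / 3)) * (n : ℝ) ^ (-(2 : ℝ) / 3))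
        = √(1 + l) * (√(n : ℝ) * (√((n : ℝ) ^ ((1 : ℝ) / 3)) * (n : ℝ) ^ (-(2 : ℝ) / 3))) := by
          ring
      _ = √(1 + l) := by rw [h4, mul_one]
      _ ≤ 1 + l := h3
  calc (1 - pc l n) ^ (n.choose 2) * XL u (n + 1) n
      ≤ (1 - pc l n) ^ (n.choose 2) * ((n.factorial : ℝ) * (u / q) ^ n *
      ((Real.exp C3 * √((1 + l) * (n : ℝ) ^ ((1 : ℝ) / 3))) *
        (Real.exp D * (C2 * (n : ℝ) ^ (-(2 : ℝ) / 3))))) :=
        mul_le_mul_of_nonneg_left hX (by positivity)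
    _ = ((1 - pc l n) ^ (n.choose 2) * (n.factorial : ℝ) * (u / q) ^ n * Real.exp D) *
        (Real.exp C3 * C2 * (√((1 + l) * (n : ℝ) ^ ((1 : ℝ) / 3)) *
          (n : ℝ) ^ (-(2 : ℝ) / 3))) := by ring
    _ ≤ (C1 * (√(n : ℝ) * Real.exp (-(l ^ 3 / 6)))) *
        (Real.exp C3 * C2 * (√((1 + l) * (n : ℝ) ^ ((1 : ℝ) / 3)) *
          (n : ℝ) ^ (-(2 : ℝ) / 3))) := mul_le_mul_of_nonneg_right h1 (by positivity)
    _ = (C1 * C2 * Real.exp C3 * Real.exp (-(l ^ 3 / 6))) *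
        (√(n : ℝ) * (√((1 + l) * (n : ℝ) ^ ((1 : ℝ) / 3)) * (n : ℝ) ^ (-(2 : ℝ) / 3))) := by ring
    _ ≤ (C1 * C2 * Real.exp C3 * Real.exp (-(l ^ 3 / 6))) * (1 + l) :=
        mul_le_mul_of_nonneg_left hsq (by positivity)
    _ = C1 * C2 * Real.exp C3 * ((1 + l) * Real.exp (-(l ^ 3 / 6))) := by ring

end Pool.Agent.Helper45.AW.AV
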